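import Mathlib

/-!
# Sidorenko's conjecture `R(3,G) ≤ k + m`: local reducibility, basic definitions
-/

set_option autoImplicit false

namespace Pool.Agent.Sid86

open Finset Classical

variable {V W : Type}

/-- number of neighbours of `x` inside `A` -/
noncomputable def dg (G : SimpleGraph V) (A : Finset V) (x : V) : ℕ :=
  (A.filter (fun y => G.Adj x y)).card

/-- twice the number of edges inside `A` -/
noncomputable def E2 (G : SimpleGraph V) (A : Finset V) : ℕ := ∑ x ∈ A, dg G A x

/-- `f` embeds `G[A]` into the complement of `H` -/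
def Emb (G : SimpleGraph V) (H : SimpleGraph W) (A : Finset V) (f : V → W) : Prop :=
  Set.InjOn f A ∧ ∀ u ∈ A, ∀ v ∈ A, G.Adj u v → ¬ H.Adj (f u) (f v)

/-- triangle-free -/
def TF (H : SimpleGraph W) : Prop := ∀ a b c, H.Adj a b → H.Adj b c → H.Adj a c → False

/-- the statement `R(3,G[A]) ≤ |A| + e(A)` -/
def Good (G : SimpleGraph V) (A : Finset V) : Prop :=
  ∀ (W : Type) [Fintype W] [Nonempty W] (H : SimpleGraph W), TF H →
    2 * A.card + E2 G A ≤ 2 * Fintype.card W → ∃ f : V → W, Emb G H A f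

lemma dg_mono (G : SimpleGraph V) {A B : Finset V} (h : A ⊆ B) (x : V) : dg G A x ≤ dg G B x :=
  card_le_card (filter_subset_filter _ h)

lemma E2_erase (G : SimpleGraph V) {A : Finset V} {u : V} (hu : u ∈ A) :
    E2 G A = E2 G (A.erase u) + 2 * dg G A u := by
  unfold E2
  rw [← Finset.add_sum_erase A _ hu]
  have h1 : ∀ x ∈ A.erase u, dg G A x = dg G (A.erase u) x + (if G.Adj u x then 1 else 0) := by
    intro x hx
    unfold dg
    by_cases h : G.Adj u x
    · rw [if_pos h]
      have : A.filter (fun y => G.Adj x y) = insert u ((A.erase u).filter (fun y => G.Adj x y)) := by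
        ext y
        simp only [mem_filter, mem_insert, mem_erase]
        constructor
        · rintro ⟨hy, hxy⟩
          by_cases hyu : y = u
          · exact Or.inl hyu
          · exact Or.inr ⟨⟨hyu, hy⟩, hxy⟩
        · rintro (rfl | ⟨⟨_, hy⟩, hxy⟩)
          · exact ⟨hu, h.symm⟩
          · exact ⟨hy, hxy⟩
      rw [this, card_insert_of_notMem]
      simp
    · rw [if_neg h]
      have : A.filter (fun y => G.Adj x y) = (A.erase u).filter (fun y => G.Adj x y) := by
        ext y
        simp only [mem_filter, mem_erase]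
        constructor
        · rintro ⟨hy, hxy⟩
          refine ⟨⟨?_, hy⟩, hxy⟩
          rintro rfl
          exact h hxy.symm
        · rintro ⟨⟨_, hy⟩, hxy⟩
          exact ⟨hy, hxy⟩
      rw [this, Nat.add_zero]
  rw [Finset.sum_congr rfl h1, Finset.sum_add_distrib]
  have h2 : ∑ x ∈ A.erase u, (if G.Adj u x then 1 else 0) = dg G A u := by
    rw [← Finset.card_filter]
    unfold dg
    congr 1
    ext y
    simp only [mem_filter, mem_erase]
    constructor
    · rintro ⟨⟨_, hy⟩, h⟩
      exact ⟨hy, h⟩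
    · rintro ⟨hy, h⟩
      exact ⟨⟨h.ne', hy⟩, h⟩
  rw [h2]
  ring

lemma E2_sdiff (G : SimpleGraph V) (c : V → V) (B : Finset V) : ∀ T : Finset V, T ⊆ B →
    (∀ v ∈ T, c v ∈ B ∧ c v ∉ T ∧ G.Adj v (c v)) →
    E2 G (B \ T) + 2 * T.card ≤ E2 G B := by
  intro T
  induction T using Finset.induction_on with
  | empty => intro _ _; simp
  | insert v T' hv ih =>
    intro hT hc
    have hT' : T' ⊆ B := fun x hx => hT (mem_insert_of_mem hx)
    have ih' := ih hT' (fun w hw => by
      obtain ⟨h1, h2, h3⟩ := hc w (mem_insert_of_mem hw)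
      exact ⟨h1, fun h => h2 (mem_insert_of_mem h), h3⟩)
    have hvB : v ∈ B \ T' := mem_sdiff.2 ⟨hT (mem_insert_self _ _), hv⟩
    have e1 : B \ insert v T' = (B \ T').erase v := by
      ext x
      simp only [mem_sdiff, mem_insert, mem_erase]
      tauto
    rw [e1, card_insert_of_notMem hv]
    have e2 := E2_erase G hvB
    have e3 : 1 ≤ dg G (B \ T') v := by
      obtain ⟨h1, h2, h3⟩ := hc v (mem_insert_self _ _)
      refine card_pos.2 ⟨c v, ?_⟩
      simp only [mem_filter, mem_sdiff]
      exact ⟨⟨h1, fun h => h2 (mem_insert_of_mem h)⟩, h3⟩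
    omega

/-- the induction hypothesis, with a forbidden set of positions -/
lemma good_avoid {G : SimpleGraph V} {A : Finset V} (hA : Good G A) [Fintype W] [Nonempty W]
    (H : SimpleGraph W) (hH : TF H) (Z : Finset W)
    (h : 2 * A.card + E2 G A + 2 * Z.card ≤ 2 * Fintype.card W) :
    ∃ f : V → W, Emb G H A f ∧ ∀ v ∈ A, f v ∉ Z := by
  by_cases hne : Nonempty {w : W // w ∉ Z}
  · have hc : Fintype.card {w : W // w ∉ Z} = Fintype.card W - Z.card := by
      rw [Fintype.card_subtype_compl]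
      simp
    have hZ : Z.card ≤ Fintype.card W := card_le_univ Z
    obtain ⟨f, hf1, hf2⟩ := hA {w : W // w ∉ Z} (H.comap (fun w => w.1))
      (fun a b c h1 h2 h3 => hH a.1 b.1 c.1 h1 h2 h3) (by rw [hc]; omega)
    refine ⟨fun v => (f v).1, ⟨?_, ?_⟩, fun v _ => (f v).2⟩
    · intro x hx y hy hxy
      exact hf1 hx hy (Subtype.ext hxy)
    · intro u hu v hv huv
      exact hf2 u hu v hv huv
  · have hZ : Z = univ := by
      ext w
      simp only [mem_univ, iff_true]
      by_contra hw
      exact hne ⟨⟨w, hw⟩⟩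
    rw [hZ, card_univ] at h
    have hA0 : A = ∅ := by
      apply card_eq_zero.1
      omega
    subst hA0
    obtain ⟨w⟩ := ‹Nonempty W›
    exact ⟨fun _ => w, ⟨by simp [Set.InjOn], by simp⟩, by simp⟩

/-- one vertex extension -/
lemma emb_config {G : SimpleGraph V} {H : SimpleGraph W} {A T : Finset V} {u : V}
    (huT : u ∉ T) {c : V → V}
    (hT : ∀ v ∈ T, ∀ x ∈ A, G.Adj v x → x = u ∨ x = c v)
    (hcT : ∀ v ∈ T, c v ∉ T ∧ c v ≠ u ∧ c v ∈ A)
    {f : V → W} (hf : Emb G H (A \ insert u T) f) {y : W}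
    (hy : ∀ x ∈ A \ insert u T, f x ≠ y)
    (hy2 : ∀ x ∈ A \ insert u T, G.Adj u x → ¬ H.Adj y (f x))
    {g : V → W} (hg : Set.InjOn g T)
    (hg1 : ∀ v ∈ T, ∀ x ∈ A \ insert u T, f x ≠ g v)
    (hg2 : ∀ v ∈ T, g v ≠ y ∧ ¬ H.Adj (g v) y ∧ ¬ H.Adj (g v) (f (c v))) :
    ∃ f' : V → W, Emb G H A f' := by
  refine ⟨fun x => if x = u then y else if x ∈ T then g x else f x, ?_, ?_⟩
  · intro x hx z hz hxz
    simp only at hxz
    have hx' : x ∈ A := hx
    have hz' : z ∈ A := hz
    by_cases hxu : x = u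
    · by_cases hzu : z = u
      · rw [hxu, hzu]
      · exfalso
        rw [if_pos hxu, if_neg hzu] at hxz
        by_cases hzT : z ∈ T
        · rw [if_pos hzT] at hxz
          exact (hg2 z hzT).1 hxz.symm
        · rw [if_neg hzT] at hxz
          exact hy z (mem_sdiff.2 ⟨hz', by simp [hzu, hzT]⟩) hxz.symm
    · rw [if_neg hxu] at hxz
      by_cases hzu : z = u
      · exfalso
        rw [if_pos hzu] at hxz
        by_cases hxT : x ∈ T
        · rw [if_pos hxT] at hxz
          exact (hg2 x hxT).1 hxz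
        · rw [if_neg hxT] at hxz
          exact hy x (mem_sdiff.2 ⟨hx', by simp [hxu, hxT]⟩) hxz
      · rw [if_neg hzu] at hxz
        by_cases hxT : x ∈ T <;> by_cases hzT : z ∈ T
        · rw [if_pos hxT, if_pos hzT] at hxz
          exact hg hxT hzT hxz
        · rw [if_pos hxT, if_neg hzT] at hxz
          exact absurd hxz.symm (hg1 x hxT z (mem_sdiff.2 ⟨hz', by simp [hzu, hzT]⟩))
        · rw [if_neg hxT, if_pos hzT] at hxz
          exact absurd hxz (hg1 z hzT x (mem_sdiff.2 ⟨hx', by simp [hxu, hxT]⟩))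
        · rw [if_neg hxT, if_neg hzT] at hxz
          exact hf.1 (mem_coe.2 (mem_sdiff.2 ⟨hx', by simp [hxu, hxT]⟩))
            (mem_coe.2 (mem_sdiff.2 ⟨hz', by simp [hzu, hzT]⟩)) hxz
  · intro x hx z hz hxz
    simp only
    by_cases hxu : x = u
    · have hzu : z ≠ u := by
        rintro rfl
        exact hxz.ne hxu
      rw [if_pos hxu, if_neg hzu]
      by_cases hzT : z ∈ T
      · rw [if_pos hzT]
        exact fun h => (hg2 z hzT).2.1 h.symm
      · rw [if_neg hzT]
        exact hy2 z (mem_sdiff.2 ⟨hz, by simp [hzu, hzT]⟩) (hxu ▸ hxz)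
    · rw [if_neg hxu]
      by_cases hzu : z = u
      · rw [if_pos hzu]
        by_cases hxT : x ∈ T
        · rw [if_pos hxT]
          exact (hg2 x hxT).2.1
        · rw [if_neg hxT]
          exact fun h => hy2 x (mem_sdiff.2 ⟨hx, by simp [hxu, hxT]⟩) (hzu ▸ hxz.symm) h.symm
      · rw [if_neg hzu]
        by_cases hxT : x ∈ T
        · have hzc : z = c x := (hT x hxT z hz hxz).resolve_left hzu
          have hzT : z ∉ T := hzc ▸ (hcT x hxT).1
          rw [if_pos hxT, if_neg hzT, hzc]
          exact (hg2 x hxT).2.2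
        · rw [if_neg hxT]
          by_cases hzT : z ∈ T
          · have hxc : x = c z := (hT z hzT x hx hxz.symm).resolve_left hxu
            rw [if_pos hzT, hxc]
            exact fun h => (hg2 z hzT).2.2 h.symm
          · rw [if_neg hzT]
            exact hf.2 x (mem_sdiff.2 ⟨hx, by simp [hxu, hxT]⟩) z
              (mem_sdiff.2 ⟨hz, by simp [hzu, hzT]⟩) hxz

/-- an independent set with at least `|A|` elements gives an embedding -/
lemma emb_of_indep {G : SimpleGraph V} {H : SimpleGraph W} [Nonempty W] {A : Finset V}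
    {I : Finset W} (hI : ∀ x ∈ I, ∀ y ∈ I, ¬ H.Adj x y) (h : A.card ≤ I.card) :
    ∃ f : V → W, Emb G H A f := by
  obtain ⟨J, hJ, hJc⟩ := exists_subset_card_eq h
  let e := Finset.equivOfCardEq (s := A) (t := J) hJc.symm
  obtain ⟨w⟩ := ‹Nonempty W›
  refine ⟨fun v => if hv : v ∈ A then (e ⟨v, hv⟩).1 else w, ?_, ?_⟩
  · intro x hx y hy hxy
    have hx' : x ∈ A := hx
    have hy' : y ∈ A := hy
    simp only [hx', hy', dif_pos] at hxy
    have := e.injective (Subtype.ext hxy)
    exact congrArg Subtype.val this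
  · intro x hx y hy _
    simp only [hx, hy, dif_pos]
    exact hI _ (hJ (e ⟨x, hx⟩).2) _ (hJ (e ⟨y, hy⟩).2)

end Pool.Agent.Sid86
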