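import Mathlib
import Pool.Agent.Lib_helper86.Sid.Base

/-!
# Sidorenko's conjecture: 5-cycles in a minimal counterexample
-/

set_option autoImplicit false

namespace Pool.Agent.Sid86

open Finset Classical

variable {V W : Type}

/-- two neighbourhoods never cover a 5-cycle -/
lemma cover2 {H : SimpleGraph W} (hH : TF H) {c : Fin 5 → W}
    (hc : ∀ i, H.Adj (c i) (c (i + 1))) (x x' : W) :
    ∃ i, ¬ H.Adj x (c i) ∧ ¬ H.Adj x' (c i) := by
  by_contra hcon
  push Not at hcon
  have h : ∀ i, H.Adj x (c i) ↔ ¬ H.Adj x (c (i + 1)) := by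
    intro i
    constructor
    · intro h1 h2
      exact hH x (c i) (c (i + 1)) h1 (hc i) h2
    · intro h1
      by_contra h2
      have h3 := hcon _ h1
      have h4 := hcon _ h2
      exact hH x' (c i) (c (i + 1)) h4 (hc i) h3
  have h0 := h 0
  have h1 := h 1
  have h2 := h 2
  have h3 := h 3
  have h4 := h 4
  have e0 : (0 : Fin 5) + 1 = 1 := by decide
  have e1 : (1 : Fin 5) + 1 = 2 := by decide
  have e2 : (2 : Fin 5) + 1 = 3 := by decide
  have e3 : (3 : Fin 5) + 1 = 4 := by decide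
  have e4 : (4 : Fin 5) + 1 = 0 := by decide
  rw [e0] at h0
  rw [e1] at h1
  rw [e2] at h2
  rw [e3] at h3
  rw [e4] at h4
  tauto

/-- a closed neighbourhood and a neighbourhood never cover a 5-cycle -/
lemma cover3 {H : SimpleGraph W} (hH : TF H) {c : Fin 5 → W}
    (hc : ∀ i, H.Adj (c i) (c (i + 1))) (y x : W) :
    ∃ i, c i ≠ y ∧ ¬ H.Adj y (c i) ∧ ¬ H.Adj x (c i) := by
  by_cases hy : ∃ i, c i = y
  · obtain ⟨i, rfl⟩ := hy
    have a1 := hc i
    have a2 := hc (i + 1)
    have a3 := hc (i + 1 + 1)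
    have a4 := hc (i + 1 + 1 + 1)
    have a5 := hc (i + 1 + 1 + 1 + 1)
    have e : ∀ j : Fin 5, j + 1 + 1 + 1 + 1 + 1 = j := by decide
    rw [e i] at a5
    have n2 : ¬ H.Adj (c i) (c (i + 1 + 1)) := fun h => hH _ _ _ a1 a2 h
    have n3 : ¬ H.Adj (c i) (c (i + 1 + 1 + 1)) := fun h => hH _ _ _ h a4 a5.symm
    have m2 : c (i + 1 + 1) ≠ c i := by
      intro h
      rw [h] at a3
      exact hH _ _ _ a3 a4 a5.symm
    have m3 : c (i + 1 + 1 + 1) ≠ c i := by
      intro h
      rw [h] at a3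
      exact hH _ _ _ a1 a2 a3.symm
    by_cases hx : H.Adj x (c (i + 1 + 1))
    · refine ⟨i + 1 + 1 + 1, m3, n3, fun h => hH _ _ _ hx a3 h⟩
    · exact ⟨i + 1 + 1, m2, n2, hx⟩
  · push Not at hy
    obtain ⟨i, h1, h2⟩ := cover2 hH hc y x
    exact ⟨i, hy i, h1, h2⟩

/-- the situation of a minimal counterexample -/
structure Ctx (G : SimpleGraph V) (A : Finset V) [Fintype W] (H : SimpleGraph W) : Prop where
  tf : TF H
  dm : ∀ x y, x ≠ y → ¬ H.Adj x y → ∃ z, H.Adj x z ∧ H.Adj y z
  card : 2 * A.card + E2 G A ≤ 2 * Fintype.card W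
  no : ¬ ∃ f : V → W, Emb G H A f
  ih : ∀ S ⊆ A, S.Nonempty → Good G (A \ S)

variable {G : SimpleGraph V} {A : Finset V} [Fintype W] [Nonempty W] {H : SimpleGraph W}

lemma Ctx.indep (h : Ctx G A H) {I : Finset W} (hI : ∀ x ∈ I, ∀ y ∈ I, ¬ H.Adj x y) :
    I.card < A.card := by
  by_contra hc
  exact h.no (emb_of_indep hI (not_lt.1 hc))

lemma Ctx.nbhd (h : Ctx G A H) (x : W) : (univ.filter (fun y => H.Adj x y)).card < A.card := by
  apply h.indep
  intro a ha b hb hab
  simp only [mem_filter, mem_univ, true_and] at ha hb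
  exact h.tf _ _ _ ha hab hb

lemma Ctx.edge (h : Ctx G A H) : ∃ a b, H.Adj a b := by
  by_contra hc
  push Not at hc
  have := h.indep (I := univ) (fun x _ y _ => hc x y)
  rw [card_univ] at this
  have := h.card
  omega

lemma Ctx.avoid (h : Ctx G A H) {S : Finset V} (hS : S ⊆ A) (hne : S.Nonempty) (Z : Finset W)
    (hZ : 2 * Z.card + E2 G (A \ S) ≤ 2 * S.card + E2 G A) :
    ∃ f : V → W, Emb G H (A \ S) f ∧ ∀ v ∈ A \ S, f v ∉ Z := by
  apply good_avoid (h.ih S hS hne) H h.tf Z
  have h1 := h.card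
  have h2 : (A \ S).card + S.card = A.card := card_sdiff_add_card_eq_card hS
  omega

lemma Ctx.deg2 (h : Ctx G A H) {v : V} (hv : v ∈ A) : 2 ≤ dg G A v := by
  by_contra hc
  obtain ⟨a, b, hab⟩ := h.edge
  have hS : insert v (∅ : Finset V) ⊆ A := by simpa using hv
  have hSe : A \ insert v (∅ : Finset V) = A.erase v := by
    ext x; simp [and_comm]
  have hE := E2_erase G hv
  have hcard : (insert v (∅ : Finset V)).card = 1 := by simp
  have key : ∀ (f : V → W), Emb G H (A \ insert v ∅) f → ∀ y : W,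
      (∀ x ∈ A \ insert v ∅, f x ≠ y) →
      (∀ x ∈ A \ insert v ∅, G.Adj v x → ¬ H.Adj y (f x)) → False := by
    intro f hf y hy hy2
    apply h.no
    exact emb_config (T := ∅) (u := v) (c := id) (by simp) (by simp) (by simp) hf hy hy2
      (g := fun _ => y) (by simp) (by simp) (by simp)
  by_cases h0 : dg G A v = 0
  · obtain ⟨f, hf, hfZ⟩ := h.avoid hS (by simp) {a} (by
      rw [hSe, hcard, card_singleton]; omega)
    refine key f hf a (fun x hx hfx => hfZ x hx (by simp [hfx])) ?_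
    intro x hx hvx _
    rw [dg, card_eq_zero, filter_eq_empty_iff] at h0
    exact h0 (mem_sdiff.1 hx).1 hvx
  · have h1 : dg G A v = 1 := by omega
    obtain ⟨f, hf, hfZ⟩ := h.avoid hS (by simp) {a, b} (by
      rw [hSe, hcard, card_pair hab.ne]; omega)
    obtain ⟨u, hu⟩ := card_eq_one.1 h1
    have hau : ¬ H.Adj a (f u) ∨ ¬ H.Adj b (f u) := by
      by_contra hcon
      push Not at hcon
      exact h.tf _ _ _ hcon.1 hcon.2.symm hab
    have hnb : ∀ x ∈ A \ insert v ∅, G.Adj v x → x = u := by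
      intro x hx hvx
      have : x ∈ A.filter (fun y => G.Adj v y) := mem_filter.2 ⟨(mem_sdiff.1 hx).1, hvx⟩
      rw [hu] at this
      simpa using this
    rcases hau with hau | hau
    · refine key f hf a (fun x hx hfx => hfZ x hx (by simp [hfx])) ?_
      intro x hx hvx
      rw [hnb x hx hvx]
      exact hau
    · refine key f hf b (fun x hx hfx => hfZ x hx (by simp [hfx])) ?_
      intro x hx hvx
      rw [hnb x hx hvx]
      exact hau

lemma Ctx.E2_ge (h : Ctx G A H) : 2 * A.card ≤ E2 G A := by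
  unfold E2
  calc 2 * A.card = ∑ x ∈ A, 2 := by simp [mul_comm]
    _ ≤ ∑ x ∈ A, dg G A x := sum_le_sum (fun x hx => h.deg2 hx)

lemma Ctx.five (h : Ctx G A H) : ∃ c : Fin 5 → W, ∀ i, H.Adj (c i) (c (i + 1)) := by
  obtain ⟨a, b, hab⟩ := h.edge
  by_cases hcov : ∀ w, H.Adj a w ∨ H.Adj b w
  · exfalso
    have h1 := h.nbhd a
    have h2 := h.nbhd b
    have h3 : (univ : Finset W) ⊆ univ.filter (fun y => H.Adj a y) ∪
        univ.filter (fun y => H.Adj b y) := by
      intro w _
      simp only [mem_union, mem_filter, mem_univ, true_and]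
      exact hcov w
    have h4 := (card_le_card h3).trans (card_union_le _ _)
    rw [card_univ] at h4
    have h5 := h.card
    have h6 := h.E2_ge
    omega
  · push Not at hcov
    obtain ⟨w, hwa, hwb⟩ := hcov
    have hwa' : a ≠ w := by
      rintro rfl
      exact hwb hab.symm
    have hwb' : b ≠ w := by
      rintro rfl
      exact hwa hab
    obtain ⟨p, hp1, hp2⟩ := h.dm a w hwa' hwa
    obtain ⟨q, hq1, hq2⟩ := h.dm b w hwb' hwb
    refine ⟨![a, p, w, q, b], ?_⟩
    intro i
    fin_cases i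
    · exact hp1
    · exact hp2.symm
    · exact hq2
    · exact hq1.symm
    · exact hab.symm

end Pool.Agent.Sid86
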