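import Mathlib
import Pool.Agent.Lib_helper86.Sid.Ctx

/-!
# Sidorenko's conjecture: blow-ups of the 5-cycle, or 8 vertices whose odd cycles have no
common vertex
-/

set_option autoImplicit false

namespace Pool.Agent.Sid86

open Finset Classical

variable {V W : Type}

/-- the 5-cycles inside `Z` have no common vertex -/
def Rich (H : SimpleGraph W) (Z : Finset W) : Prop :=
  ∀ w : W, ∃ c : Fin 5 → W, (∀ i, H.Adj (c i) (c (i + 1))) ∧ (∀ i, c i ∈ Z) ∧ ∀ i, c i ≠ w

lemma one_nbr_rich {H : SimpleGraph W} (hH : TF H)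
    (dm : ∀ x y, x ≠ y → ¬ H.Adj x y → ∃ z, H.Adj x z ∧ H.Adj y z)
    {z0 z1 z2 z3 z4 p : W} (a01 : H.Adj z0 z1) (a12 : H.Adj z1 z2) (a23 : H.Adj z2 z3)
    (a34 : H.Adj z3 z4) (a40 : H.Adj z4 z0) (hp : H.Adj p z0) (n1 : ¬ H.Adj p z1)
    (n2 : ¬ H.Adj p z2) (n3 : ¬ H.Adj p z3) (n4 : ¬ H.Adj p z4) :
    ∃ Z : Finset W, Z.card ≤ 8 ∧ Rich H Z := by
  have hp2 : p ≠ z2 := by
    rintro rfl
    exact n1 a12.symm
  have hp3 : p ≠ z3 := by
    rintro rfl
    exact n4 a34
  have hp1 : p ≠ z1 := by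
    rintro rfl
    exact n2 a12
  have hp4 : p ≠ z4 := by
    rintro rfl
    exact n3 a34.symm
  obtain ⟨r, hr1, hr2⟩ := dm p z2 hp2 n2
  obtain ⟨t, ht1, ht2⟩ := dm p z3 hp3 n3
  have h02 : z0 ≠ z2 := by
    rintro rfl
    exact hH _ _ _ a23 a34 a40.symm
  have h24 : z2 ≠ z4 := by
    rintro rfl
    exact hH _ _ _ a01 a12 a40.symm
  have h30 : z3 ≠ z0 := by
    rintro rfl
    exact hH _ _ _ a12 a23 a01.symm
  have h31 : z3 ≠ z1 := by
    rintro rfl
    exact hH _ _ _ a34 a40 a01.symm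
  have h2t : z2 ≠ t := by
    rintro rfl
    exact n2 ht1
  have h3r : z3 ≠ r := by
    rintro rfl
    exact n3 hr1
  have hr0 : r ≠ z0 := by
    rintro rfl
    exact hH _ _ _ a01 a12 hr2.symm
  have hr1' : r ≠ z1 := by
    rintro rfl
    exact n1 hr1
  have hr4 : r ≠ z4 := by
    rintro rfl
    exact n4 hr1
  have ht0 : t ≠ z0 := by
    rintro rfl
    exact hH _ _ _ a34 a40 ht2
  have ht1' : t ≠ z1 := by
    rintro rfl
    exact n1 ht1
  have ht4 : t ≠ z4 := by
    rintro rfl
    exact n4 ht1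
  have hcard : ({z0, z1, z2, z3, z4, p, r, t} : Finset W).card ≤ 8 := by
    refine (card_insert_le _ _).trans ?_
    refine Nat.succ_le_succ ((card_insert_le _ _).trans ?_)
    exact Nat.succ_le_succ card_le_six
  refine ⟨{z0, z1, z2, z3, z4, p, r, t}, hcard, ?_⟩
  have cyA : ∀ i : Fin 5, H.Adj ((![z0, z1, z2, z3, z4] : Fin 5 → W) i)
      ((![z0, z1, z2, z3, z4] : Fin 5 → W) (i + 1)) := by
    intro i
    fin_cases i
    exacts [a01, a12, a23, a34, a40]
  have cyB : ∀ i : Fin 5, H.Adj ((![p, r, z2, z3, t] : Fin 5 → W) i)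
      ((![p, r, z2, z3, t] : Fin 5 → W) (i + 1)) := by
    intro i
    fin_cases i
    exacts [hr1, hr2.symm, a23, ht2, ht1.symm]
  have cyC : ∀ i : Fin 5, H.Adj ((![z0, z1, z2, r, p] : Fin 5 → W) i)
      ((![z0, z1, z2, r, p] : Fin 5 → W) (i + 1)) := by
    intro i
    fin_cases i
    exacts [a01, a12, hr2, hr1.symm, hp]
  have cyD : ∀ i : Fin 5, H.Adj ((![p, z0, z4, z3, t] : Fin 5 → W) i)
      ((![p, z0, z4, z3, t] : Fin 5 → W) (i + 1)) := by
    intro i
    fin_cases i
    exacts [hp, a40.symm, a34.symm, ht2, ht1.symm]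
  intro w
  by_cases w2 : w = z2
  · subst w2
    refine ⟨_, cyD, ?_, ?_⟩
    · intro i
      fin_cases i <;> simp
    · intro i
      fin_cases i
      exacts [hp2, h02, h24.symm, a23.ne', h2t.symm]
  by_cases w3 : w = z3
  · subst w3
    refine ⟨_, cyC, ?_, ?_⟩
    · intro i
      fin_cases i <;> simp
    · intro i
      fin_cases i
      exacts [h30.symm, h31.symm, a23.ne, h3r.symm, hp3]
  by_cases wp : w = p ∨ w = r ∨ w = t
  · refine ⟨_, cyA, ?_, ?_⟩
    · intro i
      fin_cases i <;> simp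
    · rcases wp with rfl | rfl | rfl
      · intro i
        fin_cases i
        exacts [hp.ne', hp1.symm, hp2.symm, hp3.symm, hp4.symm]
      · intro i
        fin_cases i
        exacts [hr0.symm, hr1'.symm, fun h => w2 h.symm, h3r, hr4.symm]
      · intro i
        fin_cases i
        exacts [ht0.symm, ht1'.symm, fun h => w2 h.symm, fun h => w3 h.symm, ht4.symm]
  · push Not at wp
    refine ⟨_, cyB, ?_, ?_⟩
    · intro i
      fin_cases i <;> simp
    · intro i
      fin_cases i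
      exacts [wp.1.symm, wp.2.1.symm, fun h => w2 h.symm, fun h => w3 h.symm, wp.2.2.symm]

/-- homomorphism to the 5-cycle, or a rich set of at most 8 vertices -/
lemma dich {H : SimpleGraph W} (hH : TF H)
    (dm : ∀ x y, x ≠ y → ¬ H.Adj x y → ∃ z, H.Adj x z ∧ H.Adj y z)
    {c : Fin 5 → W} (hc : ∀ i, H.Adj (c i) (c (i + 1))) :
    (∃ Z : Finset W, Z.card ≤ 8 ∧ Rich H Z) ∨
      ∃ φ : W → Fin 5, ∀ x y, H.Adj x y → φ y = φ x + 1 ∨ φ x = φ y + 1 := by
  by_cases hR : ∃ Z : Finset W, Z.card ≤ 8 ∧ Rich H Z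
  · exact Or.inl hR
  · right
    have key : ∀ p, ∃ i, H.Adj p (c i) ∧ H.Adj p (c (i + 2)) := by
      intro p
      by_contra hcon
      push Not at hcon
      have hone : ∀ j, H.Adj p (c j) → False := by
        intro j hj
        have s0 := hc j
        have s1 := hc (j + 1)
        have s2 := hc (j + 1 + 1)
        have s3 := hc (j + 1 + 1 + 1)
        have s4 := hc (j + 1 + 1 + 1 + 1)
        have e : ∀ j : Fin 5, j + 1 + 1 + 1 + 1 + 1 = j := by decide
        rw [e j] at s4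
        refine hR (one_nbr_rich hH dm s0 s1 s2 s3 s4 hj ?_ ?_ ?_ ?_)
        · exact fun h => hH _ _ _ hj s0 h
        · have e2 : ∀ j : Fin 5, j + 1 + 1 = j + 2 := by decide
          rw [e2 j]
          exact hcon j hj
        · intro h
          have e3 : ∀ j : Fin 5, j + 1 + 1 + 1 + 2 = j := by decide
          refine hcon _ h ?_
          rw [e3 j]
          exact hj
        · exact fun h => hH _ _ _ hj s4.symm h
      have hp0 : p ≠ c 0 := by
        rintro rfl
        exact hone 1 (hc 0)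
      obtain ⟨q, hq1, hq2⟩ := dm p (c 0) hp0 (hone 0)
      have a01 := hc 0
      have a12 := hc 1
      have a23 := hc 2
      have a34 := hc 3
      have a40 := hc 4
      have e0 : (0 : Fin 5) + 1 = 1 := by decide
      have e1 : (1 : Fin 5) + 1 = 2 := by decide
      have e2 : (2 : Fin 5) + 1 = 3 := by decide
      have e3 : (3 : Fin 5) + 1 = 4 := by decide
      have e4 : (4 : Fin 5) + 1 = 0 := by decide
      rw [e0] at a01
      rw [e1] at a12
      rw [e2] at a23
      rw [e3] at a34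
      rw [e4] at a40
      have q1 : ¬ H.Adj q (c 1) := fun h => hH _ _ _ hq2.symm a01 h
      have q4 : ¬ H.Adj q (c 4) := fun h => hH _ _ _ hq2.symm a40.symm h
      by_cases q2 : H.Adj q (c 2)
      · exact hR (one_nbr_rich hH dm (z0 := q) (z1 := c 2) (z2 := c 3) (z3 := c 4) (z4 := c 0)
          q2 a23 a34 a40 hq2 hq1 (fun h => hone _ h) (fun h => hone _ h) (fun h => hone _ h)
          (fun h => hone _ h))
      by_cases q3 : H.Adj q (c 3)
      · exact hR (one_nbr_rich hH dm (z0 := q) (z1 := c 0) (z2 := c 1) (z3 := c 2) (z4 := c 3)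
          hq2.symm a01 a12 a23 q3.symm hq1 (fun h => hone _ h) (fun h => hone _ h)
          (fun h => hone _ h) (fun h => hone _ h))
      · exact hR (one_nbr_rich hH dm (z0 := c 0) (z1 := c 1) (z2 := c 2) (z3 := c 3) (z4 := c 4)
          a01 a12 a23 a34 a40 hq2.symm q1 q2 q3 q4)
    choose φ hφ1 hφ2 using key
    refine ⟨φ, ?_⟩
    intro x y hxy
    have m1 : φ y ≠ φ x := by
      intro h
      have := hφ1 y
      rw [h] at this
      exact hH _ _ _ hxy this (hφ1 x)
    have m2 : φ y ≠ φ x + 2 := by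
      intro h
      have := hφ1 y
      rw [h] at this
      exact hH _ _ _ hxy this (hφ2 x)
    have m3 : φ x ≠ φ y + 2 := by
      intro h
      have := hφ1 x
      rw [h] at this
      exact hH _ _ _ hxy (hφ2 y) this
    have dec : ∀ i j : Fin 5, j ≠ i → j ≠ i + 2 → i ≠ j + 2 → j = i + 1 ∨ i = j + 1 := by decide
    exact dec _ _ m1 m2 m3

end Pool.Agent.Sid86
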