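import Mathlib
import Pool.Agent.Lib_helper86.Sid.Dich

/-!
# Sidorenko's conjecture: graphs `H` that are homomorphic to the 5-cycle
-/

set_option autoImplicit false

namespace Pool.Agent.Sid86

open Finset Classical

variable {V W : Type}

lemma min_sum (d : V → ℕ) : ∀ (n : ℕ) (A : Finset V), A.card = n → ∀ t ≤ n,
    ∃ T ⊆ A, T.card = t ∧ A.card * (∑ x ∈ T, d x) ≤ t * ∑ x ∈ A, d x := by
  intro n
  induction n with
  | zero =>
    intro A hA t ht
    refine ⟨∅, empty_subset _, by simp; omega, by simp⟩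
  | succ n ih =>
    intro A hA t ht
    by_cases htn : t = n + 1
    · exact ⟨A, Subset.refl _, by omega, by rw [hA, htn]⟩
    · have hne : A.Nonempty := card_pos.1 (by omega)
      obtain ⟨x, hx, hmax⟩ := exists_max_image A d hne
      have hc : (A.erase x).card = n := by rw [card_erase_of_mem hx]; omega
      obtain ⟨T, hT, hTc, hTs⟩ := ih (A.erase x) hc t (by omega)
      refine ⟨T, hT.trans (erase_subset _ _), hTc, ?_⟩
      have h1 : ∑ y ∈ T, d y ≤ t * d x := by
        rw [← hTc, ← smul_eq_mul, ← Finset.sum_const]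
        exact sum_le_sum (fun y hy => hmax y (mem_of_mem_erase (hT hy)))
      have h2 : ∑ y ∈ A, d y = d x + ∑ y ∈ A.erase x, d y := (add_sum_erase A d hx).symm
      rw [h2, hA]
      rw [hc] at hTs
      calc (n + 1) * ∑ y ∈ T, d y = n * (∑ y ∈ T, d y) + ∑ y ∈ T, d y := by ring
        _ ≤ t * ∑ y ∈ A.erase x, d y + t * d x := by omega
        _ = t * (d x + ∑ y ∈ A.erase x, d y) := by ring

lemma exists_injOn [Nonempty W] {S : Finset V} {P : Finset W} (h : S.card ≤ P.card) :
    ∃ g : V → W, (∀ x ∈ S, g x ∈ P) ∧ Set.InjOn g S := by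
  obtain ⟨J, hJ, hJc⟩ := exists_subset_card_eq h
  let e := Finset.equivOfCardEq (s := S) (t := J) hJc.symm
  obtain ⟨w⟩ := ‹Nonempty W›
  refine ⟨fun v => if hv : v ∈ S then (e ⟨v, hv⟩).1 else w, ?_, ?_⟩
  · intro x hx
    simp only [hx, dif_pos]
    exact hJ (e ⟨x, hx⟩).2
  · intro x hx y hy hxy
    have hx' : x ∈ S := hx
    have hy' : y ∈ S := hy
    simp only [hx', hy', dif_pos] at hxy
    have := e.injective (Subtype.ext hxy)
    exact congrArg Subtype.val this

variable {G : SimpleGraph V} {A : Finset V} [Fintype W] [Nonempty W] {H : SimpleGraph W}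

lemma arith1 {k n s t E S w1 : ℤ} (hk : 0 < k) (hE : 2 * k ≤ E) (ht : 2 * t ≤ k)
    (hn : 2 * k + E ≤ 2 * n) (hs : s = k - t) (hw : n - 2 * s ≤ w1)
    (hS : k * S ≤ t * E) : S ≤ w1 := by
  by_contra hc
  have h1 : w1 + 1 ≤ S := by omega
  have h2 : k * (w1 + 1) ≤ t * E := le_trans (mul_le_mul_of_nonneg_left h1 hk.le) hS
  have h3 : E - 2 * k + 4 * t ≤ 2 * w1 := by omega
  have h4 : k * (E - 2 * k + 4 * t) ≤ k * (2 * w1) := mul_le_mul_of_nonneg_left h3 hk.le
  have h5 : 0 ≤ (E - 2 * k) * (k - 2 * t) := mul_nonneg (by omega) (by omega)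
  nlinarith

lemma Ctx.not_hom (h : Ctx G A H) (φ : W → Fin 5)
    (hφ : ∀ x y, H.Adj x y → φ y = φ x + 1 ∨ φ x = φ y + 1) : False := by
  set w : Fin 5 → ℕ := fun i => (univ.filter (fun x => φ x = i)).card with hw
  have hind : ∀ i, w i + w (i + 2) < A.card := by
    intro i
    have hdis : Disjoint (univ.filter (fun x => φ x = i)) (univ.filter (fun x => φ x = i + 2)) := by
      rw [disjoint_filter]
      intro x _ h1 h2
      have d : ∀ j : Fin 5, j ≠ j + 2 := by decide
      exact d i (h1.symm.trans h2)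
    have := h.indep (I := (univ.filter (fun x => φ x = i)) ∪ (univ.filter (fun x => φ x = i + 2)))
      (by
        intro x hx y hy hxy
        simp only [mem_union, mem_filter, mem_univ, true_and] at hx hy
        have d : ∀ j a b : Fin 5, (a = j ∨ a = j + 2) → (b = j ∨ b = j + 2) →
          ¬ (b = a + 1 ∨ a = b + 1) := by decide
        exact d i _ _ hx hy (hφ x y hxy))
    rwa [card_union_of_disjoint hdis] at this
  have hsum : ∑ i, w i = Fintype.card W := by
    rw [← card_univ (α := W)]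
    exact (card_eq_sum_card_fiberwise (f := φ) (s := univ) (t := univ) (fun x _ => mem_coe.2 (mem_univ _))).symm
  obtain ⟨i0, -, hmax⟩ := exists_max_image (univ : Finset (Fin 5)) (fun i => w i + w (i + 2))
    ⟨0, mem_univ _⟩
  have hsum' : w i0 + w (i0 + 1) + w (i0 + 2) + w (i0 + 3) + w (i0 + 4) = Fintype.card W := by
    rw [← hsum, Fin.sum_univ_five]
    have gen : ∀ i : Fin 5, w i + w (i + 1) + w (i + 2) + w (i + 3) + w (i + 4)
        = w 0 + w 1 + w 2 + w 3 + w 4 := by
      intro i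
      fin_cases i
      · rfl
      · change w 1 + w 2 + w 3 + w 4 + w 0 = _
        omega
      · change w 2 + w 3 + w 4 + w 0 + w 1 = _
        omega
      · change w 3 + w 4 + w 0 + w 1 + w 2 = _
        omega
      · change w 4 + w 0 + w 1 + w 2 + w 3 = _
        omega
    exact gen i0
  have m1 : w (i0 + 1) + w (i0 + 1 + 2) ≤ w i0 + w (i0 + 2) := hmax (i0 + 1) (mem_univ _)
  have m2 : w (i0 + 2) + w (i0 + 2 + 2) ≤ w i0 + w (i0 + 2) := hmax (i0 + 2) (mem_univ _)
  have m3 : w (i0 + 3) + w (i0 + 3 + 2) ≤ w i0 + w (i0 + 2) := hmax (i0 + 3) (mem_univ _)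
  have m4 : w (i0 + 4) + w (i0 + 4 + 2) ≤ w i0 + w (i0 + 2) := hmax (i0 + 4) (mem_univ _)
  have d1 : ∀ j : Fin 5, j + 1 + 2 = j + 3 := by decide
  have d2 : ∀ j : Fin 5, j + 2 + 2 = j + 4 := by decide
  have d3 : ∀ j : Fin 5, j + 3 + 2 = j := by decide
  have d4 : ∀ j : Fin 5, j + 4 + 2 = j + 1 := by decide
  rw [d1] at m1
  rw [d2] at m2
  rw [d3] at m3
  rw [d4] at m4
  have hk := hind i0
  have hcard := h.card
  have hE := h.E2_ge
  set k := A.card with hkdef
  set n := Fintype.card W with hndef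
  obtain ⟨t, ht⟩ : ∃ t, t + (w i0 + w (i0 + 2)) = k := ⟨k - (w i0 + w (i0 + 2)), by omega⟩
  obtain ⟨T, hTA, hTc, hTs⟩ := min_sum (dg G A) k A rfl t (by omega)
  set N : Finset V := (A.filter (fun x => ∃ y ∈ T, G.Adj y x)) \ T with hN
  have hNc : N.card ≤ ∑ x ∈ T, dg G A x := by
    have : N ⊆ T.biUnion (fun y => A.filter (fun x => G.Adj y x)) := by
      intro x hx
      rw [hN, mem_sdiff, mem_filter] at hx
      obtain ⟨⟨hxA, y, hy, hyx⟩, _⟩ := hx
      exact mem_biUnion.2 ⟨y, hy, mem_filter.2 ⟨hxA, hyx⟩⟩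
    exact (card_le_card this).trans card_biUnion_le
  have hS : (∑ x ∈ T, dg G A x) ≤ w i0 := by
    have hTs' : ((k : ℤ)) * ((∑ x ∈ T, dg G A x : ℕ) : ℤ) ≤ (t : ℤ) * ((E2 G A : ℕ) : ℤ) := by
      exact_mod_cast hTs
    have := arith1 (k := k) (n := n) (s := (w i0 + w (i0 + 2) : ℕ)) (t := t) (E := E2 G A)
      (S := (∑ x ∈ T, dg G A x : ℕ)) (w1 := w i0) (by omega) (by omega) (by omega) (by omega)
      (by omega) (by omega) hTs'
    exact_mod_cast this
  have hNw : N.card ≤ w i0 := hNc.trans hS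
  obtain ⟨g4, g4m, g4i⟩ := exists_injOn (S := T) (P := univ.filter (fun x => φ x = i0 + 3))
    (show T.card ≤ w (i0 + 3) by omega)
  obtain ⟨g1, g1m, g1i⟩ := exists_injOn (S := N) (P := univ.filter (fun x => φ x = i0))
    (show N.card ≤ w i0 from hNw)
  set Q : Finset W := ((univ.filter (fun x => φ x = i0)) ∪ (univ.filter (fun x => φ x = i0 + 2))) \
    N.image g1 with hQ
  have hQc : ((A \ T) \ N).card ≤ Q.card := by
    have hdis : Disjoint (univ.filter (fun x => φ x = i0)) (univ.filter (fun x => φ x = i0 + 2)) := by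
      rw [disjoint_filter]
      intro x _ h1 h2
      have d : ∀ j : Fin 5, j ≠ j + 2 := by decide
      exact d i0 (h1.symm.trans h2)
    have e1 : (N.image g1).card ≤ N.card := card_image_le
    have e2 : ((univ.filter (fun x => φ x = i0)) ∪ (univ.filter (fun x => φ x = i0 + 2))).card
        = w i0 + w (i0 + 2) := card_union_of_disjoint hdis
    have e3 := le_card_sdiff (N.image g1) ((univ.filter (fun x => φ x = i0)) ∪
      (univ.filter (fun x => φ x = i0 + 2)))
    rw [e2] at e3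
    have e4 : N ⊆ A \ T := by
      intro x hx
      rw [hN, mem_sdiff, mem_filter] at hx
      exact mem_sdiff.2 ⟨hx.1.1, hx.2⟩
    have e5 := card_sdiff_add_card_eq_card e4
    have e6 := card_sdiff_add_card_eq_card hTA
    rw [← hQ] at e3
    omega
  obtain ⟨g3, g3m, g3i⟩ := exists_injOn hQc
  simp only [mem_filter, mem_univ, true_and] at g4m g1m
  have g3m' : ∀ x ∈ (A \ T) \ N, (φ (g3 x) = i0 ∨ φ (g3 x) = i0 + 2) ∧ g3 x ∉ N.image g1 := by
    intro x hx
    have := g3m x hx
    rw [hQ, mem_sdiff, mem_union, mem_filter, mem_filter] at this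
    simpa using this
  have dd1 : ∀ j : Fin 5, j + 3 ≠ j := by decide
  have dd2 : ∀ j : Fin 5, j + 3 ≠ j + 2 := by decide
  apply h.no
  refine ⟨fun x => if x ∈ T then g4 x else if x ∈ N then g1 x else g3 x, ?_, ?_⟩
  · intro x hx y hy hxy
    have hx' : x ∈ A := hx
    have hy' : y ∈ A := hy
    simp only at hxy
    by_cases xT : x ∈ T <;> by_cases yT : y ∈ T
    · rw [if_pos xT, if_pos yT] at hxy
      exact g4i xT yT hxy
    · exfalso
      rw [if_pos xT, if_neg yT] at hxy
      have h4 := g4m x xT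
      by_cases yN : y ∈ N
      · rw [if_pos yN] at hxy
        have := g1m y yN
        rw [← hxy, h4] at this
        exact dd1 _ this
      · rw [if_neg yN] at hxy
        have := (g3m' y (mem_sdiff.2 ⟨mem_sdiff.2 ⟨hy', yT⟩, yN⟩)).1
        rw [← hxy, h4] at this
        rcases this with h5 | h5
        · exact dd1 _ h5
        · exact dd2 _ h5
    · exfalso
      rw [if_neg xT, if_pos yT] at hxy
      have h4 := g4m y yT
      by_cases xN : x ∈ N
      · rw [if_pos xN] at hxy
        have := g1m x xN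
        rw [hxy, h4] at this
        exact dd1 _ this
      · rw [if_neg xN] at hxy
        have := (g3m' x (mem_sdiff.2 ⟨mem_sdiff.2 ⟨hx', xT⟩, xN⟩)).1
        rw [hxy, h4] at this
        rcases this with h5 | h5
        · exact dd1 _ h5
        · exact dd2 _ h5
    · rw [if_neg xT, if_neg yT] at hxy
      by_cases xN : x ∈ N <;> by_cases yN : y ∈ N
      · rw [if_pos xN, if_pos yN] at hxy
        exact g1i xN yN hxy
      · exfalso
        rw [if_pos xN, if_neg yN] at hxy
        have := (g3m' y (mem_sdiff.2 ⟨mem_sdiff.2 ⟨hy', yT⟩, yN⟩)).2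
        rw [← hxy] at this
        exact this (mem_image_of_mem _ xN)
      · exfalso
        rw [if_neg xN, if_pos yN] at hxy
        have := (g3m' x (mem_sdiff.2 ⟨mem_sdiff.2 ⟨hx', xT⟩, xN⟩)).2
        rw [hxy] at this
        exact this (mem_image_of_mem _ yN)
      · rw [if_neg xN, if_neg yN] at hxy
        exact g3i (mem_coe.2 (mem_sdiff.2 ⟨mem_sdiff.2 ⟨hx', xT⟩, xN⟩))
          (mem_coe.2 (mem_sdiff.2 ⟨mem_sdiff.2 ⟨hy', yT⟩, yN⟩)) hxy
  · -- phi-values
    have hval : ∀ x ∈ A, x ∉ T → (φ (if x ∈ N then g1 x else g3 x) = i0 ∨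
        φ (if x ∈ N then g1 x else g3 x) = i0 + 2) := by
      intro x hx xT
      by_cases xN : x ∈ N
      · rw [if_pos xN]
        exact Or.inl (g1m x xN)
      · rw [if_neg xN]
        exact (g3m' x (mem_sdiff.2 ⟨mem_sdiff.2 ⟨hx, xT⟩, xN⟩)).1
    have hvalN : ∀ x ∈ A, x ∉ T → ∀ y ∈ T, G.Adj y x → φ (if x ∈ N then g1 x else g3 x) = i0 := by
      intro x hx xT y hy hyx
      have xN : x ∈ N := by
        rw [hN, mem_sdiff, mem_filter]
        exact ⟨⟨hx, y, hy, hyx⟩, xT⟩
      rw [if_pos xN]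
      exact g1m x xN
    intro x hx y hy hxy hadj
    simp only at hadj
    have hh := hφ _ _ hadj
    by_cases xT : x ∈ T <;> by_cases yT : y ∈ T
    · rw [if_pos xT, if_pos yT, g4m x xT, g4m y yT] at hh
      have d : ∀ j : Fin 5, ¬ (j + 3 = j + 3 + 1 ∨ j + 3 = j + 3 + 1) := by decide
      exact d _ hh
    · rw [if_pos xT, if_neg yT, g4m x xT, hvalN y hy yT x xT hxy] at hh
      have d : ∀ j : Fin 5, ¬ (j = j + 3 + 1 ∨ j + 3 = j + 1) := by decide
      exact d _ hh
    · rw [if_neg xT, if_pos yT, g4m y yT, hvalN x hx xT y yT hxy.symm] at hh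
      have d : ∀ j : Fin 5, ¬ (j + 3 = j + 1 ∨ j = j + 3 + 1) := by decide
      exact d _ hh
    · rw [if_neg xT, if_neg yT] at hh
      have d : ∀ j a b : Fin 5, (a = j ∨ a = j + 2) → (b = j ∨ b = j + 2) →
          ¬ (b = a + 1 ∨ a = b + 1) := by decide
      exact d i0 _ _ (hval x hx xT) (hval y hy yT) hh

end Pool.Agent.Sid86
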