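import Mathlib
import Pool.Agent.Lib_helper86.Sid.Hom

/-!
# Sidorenko's conjecture: reducible configurations around vertices of degree 2
-/

set_option autoImplicit false

namespace Pool.Agent.Sid86

open Finset Classical

variable {V W : Type}

/-- two independent predicates never cover a 5-cycle -/
lemma cover_pred {H : SimpleGraph W} {c : Fin 5 → W}
    (hc : ∀ i, H.Adj (c i) (c (i + 1))) {P Q : W → Prop}
    (hP : ∀ a b, H.Adj a b → P a → P b → False) (hQ : ∀ a b, H.Adj a b → Q a → Q b → False) :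
    ∃ i, ¬ P (c i) ∧ ¬ Q (c i) := by
  by_contra hcon
  push Not at hcon
  have h : ∀ i, P (c i) ↔ ¬ P (c (i + 1)) := by
    intro i
    constructor
    · intro h1 h2
      exact hP _ _ (hc i) h1 h2
    · intro h1
      by_contra h2
      exact hQ _ _ (hc i) (hcon _ h2) (hcon _ h1)
  have h0 := h 0
  have h1 := h 1
  have h2 := h 2
  have h3 := h 3
  have h4 := h 4
  have e0 : (0 : Fin 5) + 1 = 1 := by decide
  have e1 : (1 : Fin 5) + 1 = 2 := by decide
  have e2 : (2 : Fin 5) + 1 = 3 := by decide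
  have e3 : (3 : Fin 5) + 1 = 4 := by decide
  have e4 : (4 : Fin 5) + 1 = 0 := by decide
  rw [e0] at h0
  rw [e1] at h1
  rw [e2] at h2
  rw [e3] at h3
  rw [e4] at h4
  tauto

lemma rich_two {H : SimpleGraph W} (hH : TF H) {Z : Finset W} (hR : Rich H Z) (y x : W) :
    ∃ z1 ∈ Z, ∃ z2 ∈ Z, z1 ≠ z2 ∧ (z1 ≠ y ∧ ¬ H.Adj z1 y ∧ ¬ H.Adj z1 x) ∧
      (z2 ≠ y ∧ ¬ H.Adj z2 y ∧ ¬ H.Adj z2 x) := by
  obtain ⟨c, hc, hcZ, -⟩ := hR y
  obtain ⟨i, hi1, hi2, hi3⟩ := cover3 hH hc y x
  obtain ⟨c', hc', hcZ', hcw⟩ := hR (c i)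
  obtain ⟨j, hj1, hj2, hj3⟩ := cover3 hH hc' y x
  exact ⟨c i, hcZ i, c' j, hcZ' j, fun h => hcw j h.symm, ⟨hi1, fun h => hi2 h.symm,
    fun h => hi3 h.symm⟩, ⟨hj1, fun h => hj2 h.symm, fun h => hj3 h.symm⟩⟩

variable {G : SimpleGraph V} {A : Finset V} [Fintype W] [Nonempty W] {H : SimpleGraph W}

lemma Ctx.setup (h : Ctx G A H) {u : V} (hu : u ∈ A) {T : Finset V}
    (hT : T ⊆ A.filter (fun x => G.Adj u x)) (h2 : ∀ v ∈ T, dg G A v = 2)
    (hTT : ∀ v ∈ T, ∀ v' ∈ T, ¬ G.Adj v v') {Z : Finset W}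
    (hZ : Z.card ≤ 1 + 2 * T.card + dg G A u) :
    ∃ (f : V → W) (c : V → V), Emb G H (A \ insert u T) f ∧
      (∀ x ∈ A \ insert u T, f x ∉ Z) ∧
      (∀ v ∈ T, c v ∈ A ∧ c v ∉ T ∧ c v ≠ u ∧ G.Adj v (c v)) ∧
      (∀ y, (∀ x ∈ A \ insert u T, f x ≠ y) →
        (∀ x ∈ A \ insert u T, G.Adj u x → ¬ H.Adj y (f x)) →
        ¬ ∃ g : V → W, Set.InjOn g T ∧ ∀ v ∈ T, (∀ x ∈ A \ insert u T, f x ≠ g v) ∧
          g v ≠ y ∧ ¬ H.Adj (g v) y ∧ ¬ H.Adj (g v) (f (c v))) := by
  have huT : u ∉ T := by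
    intro hcon
    have := (mem_filter.1 (hT hcon)).2
    exact G.loopless.irrefl _ this
  have hTA : T ⊆ A := fun x hx => (mem_filter.1 (hT hx)).1
  have hex : ∀ v, ∃ c, v ∈ T → (c ∈ A ∧ c ∉ T ∧ c ≠ u ∧ G.Adj v c ∧
      ∀ x ∈ A, G.Adj v x → x = u ∨ x = c) := by
    intro v
    by_cases hv : v ∈ T
    · have hd := h2 v hv
      unfold dg at hd
      obtain ⟨a, b, hab, hs⟩ := card_eq_two.1 hd
      have huv : u ∈ A.filter (fun x => G.Adj v x) :=
        mem_filter.2 ⟨hu, (mem_filter.1 (hT hv)).2.symm⟩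
      have hall : ∀ x ∈ A, G.Adj v x → x = a ∨ x = b := by
        intro x hx hvx
        have : x ∈ A.filter (fun x => G.Adj v x) := mem_filter.2 ⟨hx, hvx⟩
        rw [hs] at this
        simpa using this
      have ha : a ∈ A ∧ G.Adj v a := by
        have : a ∈ A.filter (fun x => G.Adj v x) := by rw [hs]; simp
        exact mem_filter.1 this
      have hb : b ∈ A ∧ G.Adj v b := by
        have : b ∈ A.filter (fun x => G.Adj v x) := by rw [hs]; simp
        exact mem_filter.1 this
      rw [hs] at huv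
      simp only [mem_insert, mem_singleton] at huv
      rcases huv with rfl | rfl
      · exact ⟨b, fun _ => ⟨hb.1, fun hbT => hTT v hv b hbT hb.2, hab.symm, hb.2, hall⟩⟩
      · exact ⟨a, fun _ => ⟨ha.1, fun haT => hTT v hv a haT ha.2, hab, ha.2,
          fun x hx hvx => (hall x hx hvx).symm⟩⟩
    · exact ⟨v, fun hcon => absurd hcon hv⟩
  choose c hc using hex
  have hSA : insert u T ⊆ A := insert_subset hu hTA
  have hnum : 2 * Z.card + E2 G (A \ insert u T) ≤ 2 * (insert u T).card + E2 G A := by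
    have e1 : A \ insert u T = (A.erase u) \ T := by
      ext x
      simp only [mem_sdiff, mem_insert, mem_erase]
      tauto
    have e2 := E2_erase G hu
    have e3 := E2_sdiff G c (A.erase u) T
      (fun x hx => mem_erase.2 ⟨fun hxu => huT (hxu ▸ hx), hTA hx⟩)
      (fun v hv => ⟨mem_erase.2 ⟨(hc v hv).2.2.1, (hc v hv).1⟩, (hc v hv).2.1,
        (hc v hv).2.2.2.1⟩)
    rw [e1, card_insert_of_notMem huT]
    omega
  obtain ⟨f, hf, hfZ⟩ := h.avoid hSA (insert_nonempty _ _) Z hnum
  refine ⟨f, c, hf, hfZ, fun v hv => ⟨(hc v hv).1, (hc v hv).2.1, (hc v hv).2.2.1,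
    (hc v hv).2.2.2.1⟩, ?_⟩
  intro y hy hy2 hg
  obtain ⟨g, hgi, hg⟩ := hg
  exact h.no (emb_config huT (fun v hv x hx hvx => (hc v hv).2.2.2.2 x hx hvx)
    (fun v hv => ⟨(hc v hv).2.1, (hc v hv).2.2.1, (hc v hv).1⟩) hf hy hy2 hgi
    (fun v hv => (hg v hv).1) (fun v hv => (hg v hv).2))

/-- number of neighbours outside `T` -/
lemma out_card {u : V} {T : Finset V} (hT : T ⊆ A.filter (fun x => G.Adj u x)) :
    ((A.filter (fun x => G.Adj u x)) \ T).card = dg G A u - T.card := by
  rw [card_sdiff_of_subset hT]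
  rfl

/-- a vertex of degree 2 has no neighbour of degree at most 3 -/
lemma Ctx.config1 (h : Ctx G A H) {u v : V} (hu : u ∈ A) (hv : v ∈ A) (huv : G.Adj u v)
    (hdv : dg G A v = 2) (hdu : dg G A u ≤ 3) : False := by
  obtain ⟨c5, hc5⟩ := h.five
  have hT : ({v} : Finset V) ⊆ A.filter (fun x => G.Adj u x) := by
    intro x hx
    rw [mem_singleton] at hx
    subst hx
    exact mem_filter.2 ⟨hv, huv⟩
  have hZc : (univ.image c5).card ≤ 5 := by
    refine card_image_le.trans ?_
    simp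
  obtain ⟨f, c, hf, hfZ, hc, hno⟩ := h.setup hu hT (by simpa using hdv)
    (by simp) (Z := univ.image c5) (by
      have := h.deg2 hu
      rw [card_singleton]
      omega)
  have hO := out_card (G := G) (A := A) hT
  rw [card_singleton] at hO
  have hO2 : ((A.filter (fun x => G.Adj u x)) \ {v}).card ≤ 2 := by omega
  obtain ⟨a, b, hab⟩ : ∃ a b, (A.filter (fun x => G.Adj u x)) \ {v} ⊆ {a, b} := by
    obtain ⟨s, hs1, hs2⟩ : ∃ a b : V, (A.filter (fun x => G.Adj u x)) \ {v} ⊆ {a, b} := by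
      rcases Nat.lt_or_ge ((A.filter (fun x => G.Adj u x)) \ {v}).card 2 with h1 | h1
      · rcases Nat.lt_or_ge ((A.filter (fun x => G.Adj u x)) \ {v}).card 1 with h0 | h0
        · have : (A.filter (fun x => G.Adj u x)) \ {v} = ∅ := card_eq_zero.1 (by omega)
          exact ⟨v, v, by rw [this]; simp⟩
        · obtain ⟨a, ha⟩ := card_eq_one.1 (show ((A.filter (fun x => G.Adj u x)) \ {v}).card = 1
            by omega)
          exact ⟨a, a, by rw [ha]; simp⟩
      · obtain ⟨a, b, -, hs⟩ := card_eq_two.1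
          (show ((A.filter (fun x => G.Adj u x)) \ {v}).card = 2 by omega)
        exact ⟨a, b, by rw [hs]⟩
    exact ⟨s, hs1, hs2⟩
  obtain ⟨i, hi1, hi2⟩ := cover2 h.tf hc5 (f a) (f b)
  obtain ⟨j, hj1, hj2, hj3⟩ := cover3 h.tf hc5 (c5 i) (f (c v))
  refine hno (c5 i) ?_ ?_ ⟨fun _ => c5 j, by simp, ?_⟩
  · intro x hx hfx
    exact hfZ x hx (by rw [hfx]; exact mem_image_of_mem _ (mem_univ _))
  · intro x hx hux
    have hx' : x ∈ (A.filter (fun x => G.Adj u x)) \ {v} := by
      rw [mem_sdiff, mem_insert] at hx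
      rw [mem_sdiff, mem_filter]
      exact ⟨⟨hx.1, hux⟩, fun hh => hx.2 (Or.inr hh)⟩
    have := hab hx'
    simp only [mem_insert, mem_singleton] at this
    rcases this with rfl | rfl
    · exact fun hh => hi1 hh.symm
    · exact fun hh => hi2 hh.symm
  · intro w hw
    rw [mem_singleton] at hw
    subst hw
    refine ⟨?_, hj1, fun hh => hj2 hh.symm, fun hh => hj3 hh.symm⟩
    intro x hx hfx
    exact hfZ x hx (by rw [hfx]; exact mem_image_of_mem _ (mem_univ _))

lemma Ctx.rich (h : Ctx G A H) : ∃ Z : Finset W, Z.card ≤ 8 ∧ Rich H Z := by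
  obtain ⟨c, hc⟩ := h.five
  rcases dich h.tf h.dm hc with h1 | ⟨φ, hφ⟩
  · exact h1
  · exact (h.not_hom φ hφ).elim

lemma Ctx.indepT (h : Ctx G A H) {u : V} {T : Finset V}
    (hT : T ⊆ A.filter (fun x => G.Adj u x)) (h2 : ∀ v ∈ T, dg G A v = 2) :
    ∀ v ∈ T, ∀ v' ∈ T, ¬ G.Adj v v' := by
  intro v hv v' hv' hvv'
  exact h.config1 (mem_filter.1 (hT hv)).1 (mem_filter.1 (hT hv')).1 hvv' (h2 v' hv')
    (by rw [h2 v hv]; omega)

/-- a vertex of degree 4 has at most one neighbour of degree 2 -/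
lemma Ctx.config2 (h : Ctx G A H) {u : V} (hu : u ∈ A) {T : Finset V}
    (hT : T ⊆ A.filter (fun x => G.Adj u x)) (h2 : ∀ v ∈ T, dg G A v = 2)
    (hTc : T.card = 2) (hdu : dg G A u = 4) : False := by
  obtain ⟨Z, hZc, hR⟩ := h.rich
  obtain ⟨f, c, hf, hfZ, hc, hno⟩ := h.setup hu hT h2 (h.indepT hT h2) (Z := Z) (by omega)
  have hO := out_card (G := G) (A := A) hT
  obtain ⟨a, b, -, hab⟩ := card_eq_two.1 (show ((A.filter (fun x => G.Adj u x)) \ T).card = 2 by
    omega)
  obtain ⟨v1, v2, hv12, hTe⟩ := card_eq_two.1 hTc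
  obtain ⟨c5, hc5, hc5Z, -⟩ := hR (f a)
  obtain ⟨i, hi1, hi2⟩ := cover2 h.tf hc5 (f a) (f b)
  obtain ⟨z1, hz1, z2, hz2, hz12, hz1', hz2'⟩ := rich_two h.tf hR (c5 i) (f (c v1))
  obtain ⟨y1, hy1, y2, hy2, hy12, hy1', hy2'⟩ := rich_two h.tf hR (c5 i) (f (c v2))
  obtain ⟨p, hp, hpz, hpp⟩ : ∃ p ∈ Z, p ≠ z1 ∧ (p ≠ c5 i ∧ ¬ H.Adj p (c5 i) ∧
      ¬ H.Adj p (f (c v2))) := by
    by_cases hh : y1 = z1
    · exact ⟨y2, hy2, fun h3 => hy12 (hh.trans h3.symm), hy2'⟩
    · exact ⟨y1, hy1, hh, hy1'⟩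
  refine hno (c5 i) ?_ ?_ ⟨fun x => if x = v1 then z1 else p, ?_, ?_⟩
  · intro x hx hfx
    exact hfZ x hx (by rw [hfx]; exact hc5Z i)
  · intro x hx hux
    have hx' : x ∈ (A.filter (fun x => G.Adj u x)) \ T := by
      rw [mem_sdiff, mem_insert] at hx
      rw [mem_sdiff, mem_filter]
      exact ⟨⟨hx.1, hux⟩, fun hh => hx.2 (Or.inr hh)⟩
    rw [hab] at hx'
    simp only [mem_insert, mem_singleton] at hx'
    rcases hx' with rfl | rfl
    · exact fun hh => hi1 hh.symm
    · exact fun hh => hi2 hh.symm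
  · intro x hx y hy hxy
    have hx' : x = v1 ∨ x = v2 := by
      have : x ∈ T := hx
      rw [hTe] at this
      simpa using this
    have hy' : y = v1 ∨ y = v2 := by
      have : y ∈ T := hy
      rw [hTe] at this
      simpa using this
    simp only at hxy
    rcases hx' with rfl | rfl <;> rcases hy' with rfl | rfl
    · rfl
    · rw [if_pos rfl, if_neg hv12.symm] at hxy
      exact absurd hxy.symm hpz
    · rw [if_pos rfl, if_neg hv12.symm] at hxy
      exact absurd hxy hpz
    · rfl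
  · intro w hw
    rw [hTe] at hw
    simp only [mem_insert, mem_singleton] at hw
    by_cases hw1 : w = v1
    · subst hw1
      simp only [if_true]
      refine ⟨?_, hz1'⟩
      intro x hx hfx
      exact hfZ x hx (by rw [hfx]; exact hz1)
    · have hw2 : w = v2 := hw.resolve_left hw1
      subst hw2
      simp only [if_neg hw1]
      refine ⟨?_, hpp⟩
      intro x hx hfx
      exact hfZ x hx (by rw [hfx]; exact hp)

/-- a vertex of degree 5 has at most three neighbours of degree 2 -/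
lemma Ctx.config4 (h : Ctx G A H) {u : V} (hu : u ∈ A) {T : Finset V}
    (hT : T ⊆ A.filter (fun x => G.Adj u x)) (h2 : ∀ v ∈ T, dg G A v = 2)
    (hTc : T.card = 4) (hdu : dg G A u = 5) : False := by
  obtain ⟨Z, hZc, hR⟩ := h.rich
  obtain ⟨f, c, hf, hfZ, hc, hno⟩ := h.setup hu hT h2 (h.indepT hT h2) (Z := Z) (by omega)
  have hO := out_card (G := G) (A := A) hT
  obtain ⟨a, ha⟩ := card_eq_one.1 (show ((A.filter (fun x => G.Adj u x)) \ T).card = 1 by
    omega)
  have huT : u ∉ T := by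
    intro hcon
    exact G.loopless.irrefl _ (mem_filter.1 (hT hcon)).2
  have hTA : T ⊆ A := fun x hx => (mem_filter.1 (hT hx)).1
  set S := insert u T with hS
  have hSA : S ⊆ A := insert_subset hu hTA
  have hSc : S.card = 5 := by rw [hS, card_insert_of_notMem huT, hTc]
  -- the free positions
  set F : Finset W := univ \ (A \ S).image f with hF
  have hFmem : ∀ y, y ∈ F ↔ ∀ x ∈ A \ S, f x ≠ y := by
    intro y
    rw [hF, mem_sdiff, mem_image]
    constructor
    · rintro ⟨-, h1⟩ x hx hxy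
      exact h1 ⟨x, hx, hxy⟩
    · intro h1
      exact ⟨mem_univ _, fun ⟨x, hx, hxy⟩ => h1 x hx hxy⟩
  have hZF : Z ⊆ F := by
    intro z hz
    rw [hFmem]
    intro x hx hxz
    exact hfZ x hx (hxz ▸ hz)
  have hFc : F.card + A.card = Fintype.card W + 5 := by
    have e1 : ((A \ S).image f).card = (A \ S).card := card_image_of_injOn hf.1
    have e2 : (A \ S).card + S.card = A.card := card_sdiff_add_card_eq_card hSA
    have e3 : F.card + ((A \ S).image f).card = Fintype.card W := by
      rw [hF, card_sdiff_add_card_eq_card (subset_univ _), card_univ]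
    omega
  set t : W → V → Finset W := fun y v => F.filter (fun z => z ≠ y ∧ ¬ H.Adj z y ∧
    ¬ H.Adj z (f (c v))) with ht
  have ht2 : ∀ y v, 2 ≤ (t y v).card := by
    intro y v
    obtain ⟨z1, hz1, z2, hz2, hz12, hz1', hz2'⟩ := rich_two h.tf hR y (f (c v))
    have : ({z1, z2} : Finset W) ⊆ t y v := by
      intro z hz
      simp only [mem_insert, mem_singleton] at hz
      rcases hz with rfl | rfl
      · exact mem_filter.2 ⟨hZF hz1, hz1'⟩
      · exact mem_filter.2 ⟨hZF hz2, hz2'⟩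
    calc 2 = ({z1, z2} : Finset W).card := (card_pair hz12).symm
      _ ≤ _ := card_le_card this
  -- the list of `u`
  set L : W → Prop := fun y => y ∈ F ∧ ¬ H.Adj y (f a) with hL
  have hbad : ∀ y, L y → 3 ≤ (T.filter (fun v => (t y v).card ≤ 3)).card := by
    intro y hy
    have hno' := hno y ((hFmem y).1 hy.1) (by
      intro x hx hux
      have hx' : x ∈ (A.filter (fun x => G.Adj u x)) \ T := by
        rw [hS, mem_sdiff, mem_insert] at hx
        rw [mem_sdiff, mem_filter]
        exact ⟨⟨hx.1, hux⟩, fun hh => hx.2 (Or.inr hh)⟩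
      rw [ha, mem_singleton] at hx'
      rw [hx']
      exact hy.2)
    have hall : ¬ ∀ s : Finset {v // v ∈ T}, s.card ≤ (s.biUnion (fun v => t y v.1)).card := by
      intro hcon
      obtain ⟨g, hg1, hg2⟩ := (Finset.all_card_le_biUnion_card_iff_exists_injective
        (fun v : {v // v ∈ T} => t y v.1)).1 hcon
      apply hno'
      refine ⟨fun v => if hv : v ∈ T then g ⟨v, hv⟩ else y, ?_, ?_⟩
      · intro x hx x' hx' hxx
        have hx1 : x ∈ T := hx
        have hx2 : x' ∈ T := hx'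
        simp only [hx1, hx2, dif_pos] at hxx
        exact congrArg Subtype.val (hg1 hxx)
      · intro v hv
        simp only [hv, dif_pos]
        have := hg2 ⟨v, hv⟩
        rw [ht, mem_filter] at this
        exact ⟨(hFmem _).1 this.1, this.2⟩
    push Not at hall
    obtain ⟨s, hs⟩ := hall
    have hsne : s.Nonempty := by
      rw [nonempty_iff_ne_empty]
      rintro rfl
      simp at hs
    have hsT : s.card ≤ 4 := by
      have : s.card ≤ Fintype.card {v // v ∈ T} := card_le_univ s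
      rwa [Fintype.card_coe, hTc] at this
    have hle : ∀ v ∈ s, (t y v.1).card ≤ (s.biUnion (fun v => t y v.1)).card := by
      intro v hv
      exact card_le_card (subset_biUnion_of_mem (fun v : {v // v ∈ T} => t y v.1) hv)
    obtain ⟨v0, hv0⟩ := hsne
    have h3 : 3 ≤ s.card := by
      have := ht2 y v0.1
      have := hle v0 hv0
      omega
    have hsub : s.image (fun v => v.1) ⊆ T.filter (fun v => (t y v).card ≤ 3) := by
      intro v hv
      obtain ⟨v', hv', rfl⟩ := mem_image.1 hv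
      refine mem_filter.2 ⟨v'.2, ?_⟩
      have := hle v' hv'
      omega
    calc 3 ≤ s.card := h3
      _ = (s.image (fun v => v.1)).card := (card_image_of_injective _ Subtype.val_injective).symm
      _ ≤ _ := card_le_card hsub
  have hLind : ∀ y y', H.Adj y y' → L y → L y' → False := by
    intro y y' hyy hy hy'
    have b1 := hbad y hy
    have b2 := hbad y' hy'
    -- a common bad index
    obtain ⟨v, hv⟩ : ((T.filter (fun v => (t y v).card ≤ 3)) ∩
        (T.filter (fun v => (t y' v).card ≤ 3))).Nonempty := by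
      rw [← card_pos]
      have e1 := card_union_add_card_inter (T.filter (fun v => (t y v).card ≤ 3))
        (T.filter (fun v => (t y' v).card ≤ 3))
      have e2 : ((T.filter (fun v => (t y v).card ≤ 3)) ∪
        (T.filter (fun v => (t y' v).card ≤ 3))).card ≤ T.card :=
        card_le_card (union_subset (filter_subset _ _) (filter_subset _ _))
      omega
    rw [mem_inter, mem_filter, mem_filter] at hv
    obtain ⟨⟨hvT, hv1⟩, -, hv2⟩ := hv
    have hsub : F.filter (fun z => ¬ H.Adj z (f (c v))) ⊆ (t y v ∪ t y' v) ∪ {y, y'} := by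
      intro z hz
      rw [mem_filter] at hz
      by_cases h1 : z = y
      · simp [h1]
      by_cases h2' : z = y'
      · simp [h2']
      by_cases h3 : H.Adj z y
      · by_cases h4 : H.Adj z y'
        · exact (h.tf _ _ _ h3 hyy h4).elim
        · refine mem_union_left _ (mem_union_right _ (mem_filter.2 ⟨hz.1, h2', h4, hz.2⟩))
      · refine mem_union_left _ (mem_union_left _ (mem_filter.2 ⟨hz.1, h1, h3, hz.2⟩))
    have hc8 : (F.filter (fun z => ¬ H.Adj z (f (c v)))).card ≤ 8 := by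
      refine (card_le_card hsub).trans ?_
      have e1 := card_union_le (t y v ∪ t y' v) {y, y'}
      have e2 := card_union_le (t y v) (t y' v)
      have e3 : ({y, y'} : Finset W).card ≤ 2 := card_le_two
      omega
    have hcF : F.card ≤ (F.filter (fun z => ¬ H.Adj z (f (c v)))).card +
        (univ.filter (fun z => H.Adj (f (c v)) z)).card := by
      have e1 : F ⊆ (F.filter (fun z => ¬ H.Adj z (f (c v)))) ∪
          (univ.filter (fun z => H.Adj (f (c v)) z)) := by
        intro z hz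
        by_cases h1 : H.Adj z (f (c v))
        · exact mem_union_right _ (mem_filter.2 ⟨mem_univ _, h1.symm⟩)
        · exact mem_union_left _ (mem_filter.2 ⟨hz, h1⟩)
      exact (card_le_card e1).trans (card_union_le _ _)
    have hnb := h.nbhd (f (c v))
    -- many edges
    have hcv := hc v hvT
    have hd4 : 4 ≤ dg G A (c v) := by
      by_contra hcon
      exact h.config1 hcv.1 (hTA hvT) hcv.2.2.2.symm (h2 v hvT) (by omega)
    have hEbig : 2 * A.card + 5 ≤ E2 G A := by
      have e1 := add_sum_erase A (dg G A) hu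
      have hcmem : c v ∈ A.erase u := mem_erase.2 ⟨hcv.2.2.1, hcv.1⟩
      have e2 := add_sum_erase (A.erase u) (dg G A) hcmem
      have e3 : 2 * ((A.erase u).erase (c v)).card ≤
          ∑ x ∈ (A.erase u).erase (c v), dg G A x := by
        calc 2 * ((A.erase u).erase (c v)).card = ∑ x ∈ (A.erase u).erase (c v), 2 := by
              simp [mul_comm]
          _ ≤ _ := sum_le_sum (fun x hx => h.deg2 (mem_of_mem_erase (mem_of_mem_erase hx)))
      rw [card_erase_of_mem hcmem, card_erase_of_mem hu] at e3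
      have e4 : E2 G A = ∑ x ∈ A, dg G A x := rfl
      have e5 : 2 ≤ A.card := by
        have : ({u, c v} : Finset V) ⊆ A := by
          intro x hx
          simp only [mem_insert, mem_singleton] at hx
          rcases hx with rfl | rfl
          · exact hu
          · exact hcv.1
        calc 2 = ({u, c v} : Finset V).card := (card_pair hcv.2.2.1.symm).symm
          _ ≤ _ := card_le_card this
      omega
    have hcard := h.card
    omega
  obtain ⟨c5, hc5, hc5Z, -⟩ := hR (f a)
  obtain ⟨i, hi1, hi2⟩ := cover_pred (P := L) (Q := fun z => H.Adj z (f a)) hc5 hLind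
    (fun p q hpq hp hq => h.tf _ _ _ hp.symm hpq hq.symm)
  exact hi1 ⟨hZF (hc5Z i), hi2⟩

end Pool.Agent.Sid86
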