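import Mathlib
import Pool.Agent.Lib_helper86.Sid.Config

/-!
# Sidorenko's conjecture for graphs of maximum average degree less than 3
-/

set_option autoImplicit false

namespace Pool.Agent.Sid86

open Finset Classical

variable {V W : Type} {G : SimpleGraph V} {A : Finset V} [Fintype W] [Nonempty W]
  {H : SimpleGraph W}

/-- number of neighbours of degree 2 -/
noncomputable def t2 (G : SimpleGraph V) (A : Finset V) (x : V) : ℕ :=
  ((A.filter (fun v => dg G A v = 2)).filter (fun y => G.Adj x y)).card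

lemma t2_sub (x : V) : (A.filter (fun v => dg G A v = 2)).filter (fun y => G.Adj x y) ⊆
    A.filter (fun y => G.Adj x y) := filter_subset_filter _ (filter_subset _ _)

lemma Ctx.charge (h : Ctx G A H) {x : V} (hx : x ∈ A) (hx2 : dg G A x ≠ 2) :
    6 + t2 G A x ≤ 2 * dg G A x := by
  have hd := h.deg2 hx
  have hle : t2 G A x ≤ dg G A x := card_le_card (t2_sub x)
  have hsub : ∀ n ≤ t2 G A x, ∃ T ⊆ A.filter (fun y => G.Adj x y),
      (∀ v ∈ T, dg G A v = 2) ∧ T.card = n := by
    intro n hn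
    obtain ⟨T, hT, hTc⟩ := exists_subset_card_eq hn
    exact ⟨T, hT.trans (t2_sub x), fun v hv =>
      (mem_filter.1 (mem_filter.1 (hT hv)).1).2, hTc⟩
  rcases (show dg G A x = 3 ∨ dg G A x = 4 ∨ dg G A x = 5 ∨ 6 ≤ dg G A x by omega) with
    h3 | h4 | h5 | h6
  · have : t2 G A x = 0 := by
      by_contra hne
      obtain ⟨T, hT, hT2, hTc⟩ := hsub 1 (by omega)
      obtain ⟨v, hv⟩ := card_eq_one.1 hTc
      have hvT : v ∈ T := by rw [hv]; simp
      have hv' := mem_filter.1 (hT hvT)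
      exact h.config1 hx hv'.1 hv'.2 (hT2 v hvT) (by omega)
    omega
  · have : t2 G A x ≤ 1 := by
      by_contra hne
      obtain ⟨T, hT, hT2, hTc⟩ := hsub 2 (by omega)
      exact h.config2 hx hT hT2 hTc h4
    omega
  · have : t2 G A x ≤ 3 := by
      by_contra hne
      obtain ⟨T, hT, hT2, hTc⟩ := hsub 4 (by omega)
      exact h.config4 hx hT hT2 hTc h5
    omega
  · omega

lemma Ctx.dense (h : Ctx G A H) : 3 * A.card ≤ E2 G A := by
  set N2 := A.filter (fun v => dg G A v = 2) with hN2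
  have hcount : ∑ x ∈ A \ N2, t2 G A x = 2 * N2.card := by
    have e1 : ∑ x ∈ A \ N2, t2 G A x = ∑ v ∈ N2, ((A \ N2).filter (fun x => G.Adj x v)).card := by
      unfold t2
      exact sum_card_bipartiteAbove_eq_sum_card_bipartiteBelow (fun x y => G.Adj x y)
    rw [e1]
    have e2 : ∀ v ∈ N2, ((A \ N2).filter (fun x => G.Adj x v)).card = 2 := by
      intro v hv
      have hv' := mem_filter.1 hv
      rw [← hv'.2]
      unfold dg
      congr 1
      ext x
      simp only [mem_filter, mem_sdiff]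
      constructor
      · rintro ⟨⟨hxA, _⟩, hxv⟩
        exact ⟨hxA, hxv.symm⟩
      · rintro ⟨hxA, hvx⟩
        refine ⟨⟨hxA, ?_⟩, hvx.symm⟩
        intro hxN
        rw [hN2, mem_filter] at hxN
        exact h.config1 hxN.1 hv'.1 hvx.symm hv'.2 (by rw [hxN.2]; omega)
    rw [sum_congr rfl e2]
    simp [mul_comm]
  have h1 : 6 * (A \ N2).card + ∑ x ∈ A \ N2, t2 G A x ≤ 2 * ∑ x ∈ A \ N2, dg G A x := by
    rw [mul_sum]
    have : 6 * (A \ N2).card = ∑ x ∈ A \ N2, 6 := by simp [mul_comm]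
    rw [this, ← sum_add_distrib]
    apply sum_le_sum
    intro x hx
    rw [mem_sdiff] at hx
    exact h.charge hx.1 (fun hd => hx.2 (mem_filter.2 ⟨hx.1, hd⟩))
  have h2 : ∑ x ∈ N2, dg G A x = 2 * N2.card := by
    have : ∑ x ∈ N2, dg G A x = ∑ _x ∈ N2, 2 :=
      sum_congr rfl (fun x hx => (mem_filter.1 hx).2)
    rw [this, sum_const, smul_eq_mul, mul_comm]
  have h3 : ∑ x ∈ A \ N2, dg G A x + ∑ x ∈ N2, dg G A x = ∑ x ∈ A, dg G A x :=
    sum_sdiff (filter_subset _ _)
  have h4 : (A \ N2).card + N2.card = A.card := card_sdiff_add_card_eq_card (filter_subset _ _)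
  unfold E2
  omega

/-- hereditary sparsity -/
def Sparse3 (G : SimpleGraph V) (A : Finset V) : Prop :=
  ∀ S ⊆ A, S.Nonempty → E2 G S < 3 * S.card

omit [Fintype W] [Nonempty W] in
/-- adding an edge between two vertices without a common neighbour -/
lemma tf_add {H : SimpleGraph W} (hH : TF H) {x y : W} (hxy : x ≠ y)
    (hno : ∀ z, ¬ (H.Adj x z ∧ H.Adj y z)) : TF (H ⊔ SimpleGraph.fromEdgeSet {s(x, y)}) := by
  intro a b c hab hbc hac
  have hh : ∀ p q, (H ⊔ SimpleGraph.fromEdgeSet {s(x, y)}).Adj p q →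
      H.Adj p q ∨ (p = x ∧ q = y) ∨ (p = y ∧ q = x) := by
    intro p q hpq
    rw [SimpleGraph.sup_adj] at hpq
    rcases hpq with h1 | h1
    · exact Or.inl h1
    · rw [SimpleGraph.fromEdgeSet_adj] at h1
      have := h1.1
      rw [Set.mem_singleton_iff, Sym2.eq_iff] at this
      exact Or.inr this
  have e1 := hh a b hab
  have e2 := hh b c hbc
  have e3 := hh a c hac
  have l1 := hab.ne
  have l2 := hbc.ne
  have l3 := hac.ne
  rcases e1 with e1 | ⟨rfl, rfl⟩ | ⟨rfl, rfl⟩ <;> rcases e2 with e2 | ⟨h21, h22⟩ | ⟨h21, h22⟩ <;>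
    rcases e3 with e3 | ⟨h31, h32⟩ | ⟨h31, h32⟩
  all_goals first
    | exact hH _ _ _ e1 e2 e3
    | skip
  all_goals try subst_vars
  all_goals first
    | exact hno _ ⟨e1, e2⟩
    | exact hno _ ⟨e1, e2.symm⟩
    | exact hno _ ⟨e1.symm, e2⟩
    | exact hno _ ⟨e1.symm, e2.symm⟩
    | exact hno _ ⟨e2, e1⟩
    | exact hno _ ⟨e2, e1.symm⟩
    | exact hno _ ⟨e2.symm, e1⟩
    | exact hno _ ⟨e2.symm, e1.symm⟩
    | exact hno _ ⟨e1, e3⟩
    | exact hno _ ⟨e1, e3.symm⟩
    | exact hno _ ⟨e1.symm, e3⟩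
    | exact hno _ ⟨e1.symm, e3.symm⟩
    | exact hno _ ⟨e3, e1⟩
    | exact hno _ ⟨e3, e1.symm⟩
    | exact hno _ ⟨e3.symm, e1⟩
    | exact hno _ ⟨e3.symm, e1.symm⟩
    | exact hno _ ⟨e2, e3⟩
    | exact hno _ ⟨e2, e3.symm⟩
    | exact hno _ ⟨e2.symm, e3⟩
    | exact hno _ ⟨e2.symm, e3.symm⟩
    | exact hno _ ⟨e3, e2⟩
    | exact hno _ ⟨e3, e2.symm⟩
    | exact hno _ ⟨e3.symm, e2⟩
    | exact hno _ ⟨e3.symm, e2.symm⟩
    | exact absurd rfl l1
    | exact absurd rfl l2
    | exact absurd rfl l3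

theorem good_of_sparse (G : SimpleGraph V) : ∀ (n : ℕ) (A : Finset V), A.card = n →
    Sparse3 G A → Good G A := by
  intro n
  induction n using Nat.strong_induction_on with
  | _ n ih =>
    intro A hA hsp W _ _ H0 hH0 hcard
    by_cases hAe : A = ∅
    · subst hAe
      obtain ⟨w⟩ := ‹Nonempty W›
      exact ⟨fun _ => w, by simp [Set.InjOn], by simp⟩
    have hAne : A.Nonempty := nonempty_iff_ne_empty.2 hAe
    obtain ⟨H, hHH, hmax⟩ := (Set.toFinite {H : SimpleGraph W | TF H}).exists_le_maximal hH0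
    by_contra hno0
    have hno : ¬ ∃ f : V → W, Emb G H A f := by
      rintro ⟨f, hf1, hf2⟩
      exact hno0 ⟨f, hf1, fun u hu v hv huv hadj => hf2 u hu v hv huv (hHH hadj)⟩
    have hctx : Ctx G A H := by
      refine ⟨hmax.prop, ?_, hcard, hno, ?_⟩
      · intro x y hxy hnadj
        by_contra hcon
        push Not at hcon
        have hTF : TF (H ⊔ SimpleGraph.fromEdgeSet {s(x, y)}) :=
          tf_add hmax.prop hxy (fun z hz => hcon z hz.1 hz.2)
        have hle := hmax.le_of_ge hTF le_sup_left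
        apply hnadj
        apply hle
        rw [SimpleGraph.sup_adj]
        right
        rw [SimpleGraph.fromEdgeSet_adj]
        exact ⟨rfl, hxy⟩
      · intro S hS hSne
        have hlt : (A \ S).card < n := by
          have := card_sdiff_add_card_eq_card hS
          have := card_pos.2 hSne
          omega
        exact ih _ hlt (A \ S) rfl (fun S' hS' hne => hsp S' (hS'.trans sdiff_subset) hne)
    have h1 := hctx.dense
    have h2 := hsp A (Subset.refl _) hAne
    omega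

end Pool.Agent.Sid86
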